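import Mathlib
import Pool.Agent.VM.StmtsH
import Pool.Agent.Helper69_Weyl.Transfer

set_option autoImplicit false

/-! The Kusmin-Landau inequality. -/

namespace Pool.Agent.VM.H17

open Pool.Agent.Helper69_Weyl (ee ee_add ee_int norm_ee sin_ge)

/-- the cotangent of `π x` -/
noncomputable def kap (x : ℝ) : ℝ := Real.cos (Real.pi * x) / Real.sin (Real.pi * x)

theorem sin_lb {x δ : ℝ} (hδ : 0 < δ) (h1 : δ ≤ x) (h2 : x ≤ 1 - δ) :
    2 * δ ≤ Real.sin (Real.pi * x) := by
  have h := sin_ge x (by linarith) (by linarith)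
  have : δ ≤ min x (1 - x) := le_min h1 (by linarith)
  linarith

/-- `c (1 - e(x)) = 1` for `c = (1 + i cot (π x)) / 2` -/
theorem c_mul {x : ℝ} (hs : Real.sin (Real.pi * x) ≠ 0) :
    ((1 + Complex.I * (kap x : ℂ)) / 2) * (1 - ee x) = 1 := by
  have e1 : ee x = (Complex.cos ((Real.pi * x : ℝ) : ℂ) + Complex.sin ((Real.pi * x : ℝ) : ℂ) *
      Complex.I) ^ 2 := by
    unfold ee
    rw [← Complex.exp_mul_I, ← Complex.exp_nat_mul]
    congr 1
    push_cast
    ring
  have hs' : ((Real.sin (Real.pi * x) : ℝ) : ℂ) ≠ 0 := by exact_mod_cast hs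
  rw [e1, ← Complex.ofReal_cos, ← Complex.ofReal_sin]
  unfold kap
  have h1 : ((Real.sin (Real.pi * x) : ℝ) : ℂ) ^ 2 + ((Real.cos (Real.pi * x) : ℝ) : ℂ) ^ 2 = 1 := by
    exact_mod_cast Real.sin_sq_add_cos_sq (Real.pi * x)
  set s : ℂ := ((Real.sin (Real.pi * x) : ℝ) : ℂ) with hsdef
  set c : ℂ := ((Real.cos (Real.pi * x) : ℝ) : ℂ) with hcdef
  have hI : Complex.I ^ 2 = -1 := Complex.I_sq
  have e2 : (((Real.cos (Real.pi * x) / Real.sin (Real.pi * x) : ℝ)) : ℂ) = c / s := by
    rw [hsdef, hcdef]; push_cast; rfl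
  rw [e2]
  field_simp
  have e3 : (s + Complex.I * c) * (1 - (c + s * Complex.I) ^ 2) =
      (s + Complex.I * c) * ((s ^ 2 + c ^ 2) - (c + s * Complex.I) ^ 2) := by rw [h1]
  have e4 : (s + Complex.I * c) * ((s ^ 2 + c ^ 2) - (c + s * Complex.I) ^ 2) =
      2 * s * (s ^ 2 + c ^ 2) + (Complex.I ^ 2 + 1) * (-(s ^ 3) - 2 * s * c ^ 2 - Complex.I * c * s ^ 2) := by
    ring
  rw [mul_comm Complex.I s, e3, e4, h1, hI]
  ring

theorem norm_c {x : ℝ} (hs : 0 < Real.sin (Real.pi * x)) (σ : ℝ) (hσ : σ = 1 ∨ σ = -1) :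
    ‖(1 + (σ : ℂ) * (Complex.I * (kap x : ℂ))) / 2‖ = 1 / (2 * Real.sin (Real.pi * x)) := by
  have e1 : (1 + (σ : ℂ) * (Complex.I * (kap x : ℂ))) = ((1 : ℝ) : ℂ) + ((σ * kap x : ℝ) : ℂ) * Complex.I := by
    push_cast; ring
  rw [norm_div, e1, Complex.norm_add_mul_I]
  have hσ2 : (σ * kap x) ^ 2 = kap x ^ 2 := by
    rcases hσ with h | h <;> rw [h] <;> ring
  rw [hσ2]
  have e2 : (1 : ℝ) ^ 2 + kap x ^ 2 = (1 / Real.sin (Real.pi * x)) ^ 2 := by
    unfold kap
    field_simp
    exact Real.sin_sq_add_cos_sq _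
  rw [e2, Real.sqrt_sq (by positivity)]
  norm_num
  field_simp

theorem kap_anti {x y : ℝ} (hx0 : 0 < x) (hxy : x ≤ y) (hy1 : y < 1) : kap y ≤ kap x := by
  have hpi := Real.pi_pos
  have sx : 0 < Real.sin (Real.pi * x) :=
    Real.sin_pos_of_pos_of_lt_pi (by positivity) (by nlinarith)
  have sy : 0 < Real.sin (Real.pi * y) :=
    Real.sin_pos_of_pos_of_lt_pi (by nlinarith) (by nlinarith)
  unfold kap
  rw [div_le_div_iff₀ sy sx]
  have h := Real.sin_sub (Real.pi * y) (Real.pi * x)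
  have h2 : 0 ≤ Real.sin (Real.pi * y - Real.pi * x) :=
    Real.sin_nonneg_of_nonneg_of_le_pi (by nlinarith) (by nlinarith)
  nlinarith

theorem kap_abs {x : ℝ} (hs : 0 < Real.sin (Real.pi * x)) : |kap x| ≤ 1 / Real.sin (Real.pi * x) := by
  unfold kap
  rw [abs_div, abs_of_pos hs]
  exact div_le_div_of_nonneg_right (Real.abs_cos_le_one _) hs.le

/-- summation by parts -/
theorem parts (E C : ℕ → ℂ) (j : ℕ) (h : ∀ m ≤ j, E m = C m * (E m - E (m + 1))) :
    ∑ m ∈ Finset.range (j + 2), E m = C 0 * E 0 +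
      ∑ m ∈ Finset.range j, (C (m + 1) - C m) * E (m + 1) + (1 - C j) * E (j + 1) := by
  induction j with
  | zero =>
    rw [Finset.sum_range_succ, Finset.sum_range_succ, Finset.sum_range_zero, Finset.sum_range_zero]
    have h0 := h 0 le_rfl
    linear_combination h0
  | succ j ih =>
    rw [Finset.sum_range_succ, ih (fun m hm => h m (by omega)), Finset.sum_range_succ]
    have h0 := h (j + 1) le_rfl
    linear_combination h0

theorem mono_chain (f : ℕ → ℝ) (j : ℕ) (h : (∀ m < j, f m ≤ f (m + 1)) ∨ (∀ m < j, f (m + 1) ≤ f m)) :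
    ∑ m ∈ Finset.range j, |f (m + 1) - f m| = |f j - f 0| := by
  rcases h with h | h
  · have h1 : ∀ m ∈ Finset.range j, |f (m + 1) - f m| = f (m + 1) - f m := by
      intro m hm
      exact abs_of_nonneg (sub_nonneg.2 (h m (Finset.mem_range.1 hm)))
    rw [Finset.sum_congr rfl h1, Finset.sum_range_sub]
    have h2 : ∀ i ≤ j, f 0 ≤ f i := by
      intro i
      induction i with
      | zero => intro _; exact le_rfl
      | succ i ih => intro hi; exact (ih (by omega)).trans (h i (by omega))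
    rw [abs_of_nonneg (sub_nonneg.2 (h2 j le_rfl))]
  · have h1 : ∀ m ∈ Finset.range j, |f (m + 1) - f m| = -(f (m + 1) - f m) := by
      intro m hm
      exact abs_of_nonpos (sub_nonpos.2 (h m (Finset.mem_range.1 hm)))
    rw [Finset.sum_congr rfl h1, Finset.sum_neg_distrib, Finset.sum_range_sub]
    have h2 : ∀ i ≤ j, f i ≤ f 0 := by
      intro i
      induction i with
      | zero => intro _; exact le_rfl
      | succ i ih => intro hi; exact (h i (by omega)).trans (ih (by omega))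
    rw [abs_of_nonpos (sub_nonpos.2 (h2 j le_rfl))]

theorem kul_nat (G : ℕ → ℝ) (M : ℕ) (δ : ℝ) (hδ : 0 < δ) (hδ2 : δ ≤ 1 / 2)
    (hmon : (∀ m, m + 1 < M → G (m + 1) - G m ≤ G (m + 2) - G (m + 1)) ∨
      (∀ m, m + 1 < M → G (m + 2) - G (m + 1) ≤ G (m + 1) - G m))
    (hD : ∀ m, m < M → δ ≤ G (m + 1) - G m ∧ G (m + 1) - G m ≤ 1 - δ) :
    ‖∑ m ∈ Finset.range (M + 1), ee (G m)‖ ≤ 3 / δ := by
  rcases Nat.eq_zero_or_pos M with hM | hM
  · subst hM
    rw [Finset.sum_range_one, norm_ee, le_div_iff₀ hδ]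
    linarith
  obtain ⟨j, rfl⟩ : ∃ j, M = j + 1 := ⟨M - 1, by omega⟩
  set D : ℕ → ℝ := fun m => G (m + 1) - G m with hDdef
  set C : ℕ → ℂ := fun m => (1 + Complex.I * (kap (D m) : ℂ)) / 2 with hCdef
  have hsin : ∀ m ≤ j, 2 * δ ≤ Real.sin (Real.pi * D m) := fun m hm =>
    sin_lb hδ (hD m (by omega)).1 (hD m (by omega)).2
  have hE : ∀ m ≤ j, ee (G m) = C m * (ee (G m) - ee (G (m + 1))) := by
    intro m hm
    have h1 : ee (G (m + 1)) = ee (G m) * ee (D m) := by
      rw [← ee_add]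
      congr 1
      simp only [hDdef]
      ring
    have h2 := c_mul (x := D m) (by have := hsin m hm; intro h; linarith)
    rw [h1]
    calc ee (G m) = ee (G m) * (C m * (1 - ee (D m))) := by rw [hCdef, h2, mul_one]
      _ = C m * (ee (G m) - ee (G m) * ee (D m)) := by ring
  rw [parts (fun m => ee (G m)) C j hE]
  have hC0 : ∀ m ≤ j, ‖C m‖ ≤ 1 / (4 * δ) := by
    intro m hm
    have hs := hsin m hm
    have h1 := norm_c (x := D m) (by linarith) 1 (Or.inl rfl)
    have e1 : (1 + ((1 : ℝ) : ℂ) * (Complex.I * (kap (D m) : ℂ))) / 2 = C m := by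
      rw [hCdef]; push_cast; ring
    rw [e1] at h1
    rw [h1]
    exact one_div_le_one_div_of_le (by linarith) (by linarith)
  have hC1 : ‖1 - C j‖ ≤ 1 / (4 * δ) := by
    have hs := hsin j le_rfl
    have h1 := norm_c (x := D j) (by linarith) (-1) (Or.inr rfl)
    have e1 : (1 + ((-1 : ℝ) : ℂ) * (Complex.I * (kap (D j) : ℂ))) / 2 = 1 - C j := by
      rw [hCdef]; push_cast; ring
    rw [e1] at h1
    rw [h1]
    exact one_div_le_one_div_of_le (by linarith) (by linarith)
  have hvar : ∑ m ∈ Finset.range j, ‖C (m + 1) - C m‖ ≤ 1 / (2 * δ) := by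
    have h1 : ∀ m ∈ Finset.range j, ‖C (m + 1) - C m‖ = |kap (D (m + 1)) - kap (D m)| / 2 := by
      intro m _
      have e1 : C (m + 1) - C m = Complex.I * (((kap (D (m + 1)) - kap (D m)) / 2 : ℝ) : ℂ) := by
        simp only [hCdef]; push_cast; ring
      rw [e1, norm_mul, Complex.norm_I, one_mul, Complex.norm_real, Real.norm_eq_abs, abs_div,
        abs_of_pos (by norm_num : (0 : ℝ) < 2)]
    rw [Finset.sum_congr rfl h1, ← Finset.sum_div]
    have hchain : (∀ m < j, kap (D m) ≤ kap (D (m + 1))) ∨ (∀ m < j, kap (D (m + 1)) ≤ kap (D m)) := by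
      rcases hmon with h | h
      · right
        intro m hm
        have ha := hD m (by omega)
        have hb := hD (m + 1) (by omega)
        exact kap_anti (by linarith [ha.1]) (h m (by omega)) (by linarith [hb.2])
      · left
        intro m hm
        have ha := hD m (by omega)
        have hb := hD (m + 1) (by omega)
        exact kap_anti (by linarith [hb.1]) (h m (by omega)) (by linarith [ha.2])
    rw [mono_chain (fun m => kap (D m)) j hchain]
    have hk : ∀ m ≤ j, |kap (D m)| ≤ 1 / (2 * δ) := by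
      intro m hm
      have hs := hsin m hm
      refine (kap_abs (by linarith)).trans ?_
      exact one_div_le_one_div_of_le (by linarith) (by linarith)
    have ht : |kap (D j) - kap (D 0)| ≤ |kap (D j)| + |kap (D 0)| := abs_sub _ _
    have h2 := hk j le_rfl
    have h3 := hk 0 (Nat.zero_le _)
    linarith
  have hsum : ‖∑ m ∈ Finset.range j, (C (m + 1) - C m) * ee (G (m + 1))‖ ≤ 1 / (2 * δ) := by
    refine (norm_sum_le _ _).trans (le_trans (le_of_eq ?_) hvar)
    refine Finset.sum_congr rfl fun m _ => ?_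
    rw [norm_mul, norm_ee, mul_one]
  have ha : ‖C 0 * ee (G 0)‖ ≤ 1 / (4 * δ) := by
    rw [norm_mul, norm_ee, mul_one]; exact hC0 0 (Nat.zero_le _)
  have hb : ‖(1 - C j) * ee (G (j + 1))‖ ≤ 1 / (4 * δ) := by
    rw [norm_mul, norm_ee, mul_one]; exact hC1
  have hfin : 1 / (4 * δ) + 1 / (2 * δ) + 1 / (4 * δ) ≤ 3 / δ := by
    have e : 1 / (4 * δ) + 1 / (2 * δ) + 1 / (4 * δ) = 1 / δ := by field_simp; norm_num
    rw [e]
    exact div_le_div_of_nonneg_right (by norm_num) hδ.le
  calc ‖C 0 * ee (G 0) + ∑ m ∈ Finset.range j, (C (m + 1) - C m) * ee (G (m + 1)) +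
        (1 - C j) * ee (G (j + 1))‖
      ≤ ‖C 0 * ee (G 0)‖ + ‖∑ m ∈ Finset.range j, (C (m + 1) - C m) * ee (G (m + 1))‖ +
        ‖(1 - C j) * ee (G (j + 1))‖ := norm_add₃_le
    _ ≤ 3 / δ := by linarith

/-- KUL: the Kusmin-Landau inequality -/
theorem kul : KulStmt := by
  intro g lo hi z δ hδ hδ2 hmon hD
  rcases lt_or_ge hi lo with h | h
  · rw [Finset.Icc_eq_empty (by omega), Finset.sum_empty, norm_zero]
    positivity
  obtain ⟨M, hM⟩ : ∃ M : ℕ, hi = lo + M := ⟨(hi - lo).toNat, by omega⟩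
  set G : ℕ → ℝ := fun m => g (lo + m) - (z : ℝ) * ((lo : ℝ) + m) with hG
  have hdiff : ∀ m : ℕ, G (m + 1) - G m = g (lo + m + 1) - g (lo + m) - z := by
    intro m
    simp only [hG]
    have e : lo + ((m + 1 : ℕ) : ℤ) = lo + m + 1 := by push_cast; ring
    rw [e]
    push_cast
    ring
  have e1 : ∑ n ∈ Finset.Icc lo hi, ee (g n) = ∑ m ∈ Finset.range (M + 1), ee (G m) := by
    symm
    refine Finset.sum_nbij' (fun m : ℕ => lo + m) (fun n => (n - lo).toNat) ?_ ?_ ?_ ?_ ?_
    · intro m hm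
      rw [Finset.mem_range] at hm
      rw [Finset.mem_Icc]
      omega
    · intro n hn
      rw [Finset.mem_Icc] at hn
      rw [Finset.mem_range]
      omega
    · intro m hm
      simp
    · intro n hn
      rw [Finset.mem_Icc] at hn
      show lo + (((n - lo).toNat : ℕ) : ℤ) = n
      omega
    · intro m hm
      simp only [hG]
      have e2 : g (lo + m) - (z : ℝ) * ((lo : ℝ) + m) = g (lo + m) + ((-(z * (lo + m)) : ℤ) : ℝ) := by
        push_cast; ring
      rw [e2, ee_add, ee_int, mul_one]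
  rw [e1]
  refine kul_nat G M δ hδ hδ2 ?_ ?_
  · rcases hmon with h1 | h1
    · left
      intro m hm
      have h2 := h1 (lo + m) (by omega) (by omega)
      have h3 := hdiff m
      have h4 := hdiff (m + 1)
      have e3 : lo + ((m + 1 : ℕ) : ℤ) = lo + m + 1 := by push_cast; ring
      rw [e3] at h4
      have e4 : lo + (m : ℤ) + 1 + 1 = lo + m + 2 := by ring
      rw [e4] at h4
      show G (m + 1) - G m ≤ G (m + 1 + 1) - G (m + 1)
      linarith
    · right
      intro m hm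
      have h2 := h1 (lo + m) (by omega) (by omega)
      have h3 := hdiff m
      have h4 := hdiff (m + 1)
      have e3 : lo + ((m + 1 : ℕ) : ℤ) = lo + m + 1 := by push_cast; ring
      rw [e3] at h4
      have e4 : lo + (m : ℤ) + 1 + 1 = lo + m + 2 := by ring
      rw [e4] at h4
      show G (m + 1 + 1) - G (m + 1) ≤ G (m + 1) - G m
      linarith
  · intro m hm
    have h2 := hD (lo + m) (by omega) (by omega)
    rw [hdiff m]
    constructor <;> linarith [h2.1, h2.2]

end Pool.Agent.VM.H17
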