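import Mathlib
import Pool.Agent.VM.StmtsH

set_option autoImplicit false

/-! Complete sums modulo prime powers: the degenerate cases. -/

namespace Pool.Agent.VM.H17

open Pool.Agent.Helper69_Weyl (ee ee_add ee_int norm_ee sum_ee_div)

/-- the additive character modulo `Q` -/
noncomputable def ph (A : ℤ) (Q : ℕ) : ℂ := ee ((A : ℝ) / (Q : ℝ))

theorem ph_add (A B : ℤ) (Q : ℕ) : ph (A + B) Q = ph A Q * ph B Q := by
  unfold ph
  rw [← ee_add]
  congr 1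
  push_cast
  ring

theorem ph_dvd {A : ℤ} {Q : ℕ} (hQ : 0 < Q) (h : (Q : ℤ) ∣ A) : ph A Q = 1 := by
  obtain ⟨B, rfl⟩ := h
  unfold ph
  have : (((Q : ℤ) * B : ℤ) : ℝ) / (Q : ℝ) = (B : ℝ) := by
    push_cast
    have : (Q : ℝ) ≠ 0 := by positivity
    field_simp
  rw [this, ee_int]

theorem ph_congr {A B : ℤ} {Q : ℕ} (hQ : 0 < Q) (h : (Q : ℤ) ∣ A - B) : ph A Q = ph B Q := by
  have : A = (A - B) + B := by ring
  rw [this, ph_add, ph_dvd hQ h, one_mul]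

theorem ph_scale (A : ℤ) (p j n : ℕ) (hp : 0 < p) : ph ((p : ℤ) ^ j * A) (p ^ (j + n)) = ph A (p ^ n) := by
  unfold ph
  congr 1
  have hp' : (p : ℝ) ≠ 0 := by positivity
  push_cast
  rw [pow_add]
  field_simp

theorem sum_mul_range (f : ℕ → ℂ) (a b : ℕ) :
    ∑ z ∈ Finset.range (a * b), f z = ∑ w ∈ Finset.range b, ∑ y ∈ Finset.range a, f (a * w + y) := by
  induction b with
  | zero => simp
  | succ b ih =>
    rw [Nat.mul_succ, Finset.sum_range_add, ih, Finset.sum_range_succ]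

theorem sum_period (f : ℕ → ℂ) (a b : ℕ) (h : ∀ w y, f (a * w + y) = f y) :
    ∑ z ∈ Finset.range (a * b), f z = (b : ℂ) * ∑ y ∈ Finset.range a, f y := by
  rw [sum_mul_range]
  have : ∀ w ∈ Finset.range b, ∑ y ∈ Finset.range a, f (a * w + y) = ∑ y ∈ Finset.range a, f y :=
    fun w _ => Finset.sum_congr rfl fun y _ => h w y
  rw [Finset.sum_congr rfl this, Finset.sum_const, Finset.card_range, nsmul_eq_mul]

theorem sum_mult (F : ℕ → ℂ) (p B : ℕ) (hp : 0 < p) :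
    ∑ y ∈ (Finset.range (p * B)).filter (fun y => p ∣ y), F y = ∑ z ∈ Finset.range B, F (p * z) := by
  symm
  refine Finset.sum_nbij' (fun z => p * z) (fun y => y / p) ?_ ?_ ?_ ?_ ?_
  · intro z hz
    rw [Finset.mem_range] at hz
    rw [Finset.mem_filter, Finset.mem_range]
    exact ⟨Nat.mul_lt_mul_of_pos_left hz hp, Dvd.intro _ rfl⟩
  · intro y hy
    rw [Finset.mem_filter, Finset.mem_range] at hy
    rw [Finset.mem_range]
    exact Nat.div_lt_of_lt_mul hy.1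
  · intro z _
    exact Nat.mul_div_cancel_left z hp
  · intro y hy
    rw [Finset.mem_filter] at hy
    exact Nat.mul_div_cancel' hy.2
  · intro z _
    rfl

theorem tau_bound {k p τ : ℕ} (hk : 3 ≤ k) (hp : 2 ≤ p) (h : p ^ τ ∣ k) : τ + 2 ≤ k := by
  have h1 : p ^ τ ≤ k := Nat.le_of_dvd (by omega) h
  have h2 : 2 ^ τ ≤ p ^ τ := Nat.pow_le_pow_left hp τ
  rcases Nat.lt_or_ge τ 2 with h3 | h3
  · omega
  · have h4 : ∀ n, 2 ≤ n → n + 2 ≤ 2 ^ n := by
      intro n hn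
      induction n, hn using Nat.le_induction with
      | base => norm_num
      | succ n hn ih => rw [pow_succ]; omega
    have := h4 τ h3
    omega

/-- the reduction when `p ^ (τ + 1) ∣ m` -/
theorem reduce (k : ℕ) (hk : 3 ≤ k) (stp : StpStmt) (p e τ : ℕ) (b m : ℤ) (hp : p.Prime)
    (hb : ¬ (p : ℤ) ∣ b) (h1 : p ^ τ ∣ k) (h2 : ¬ p ^ (τ + 1) ∣ k) (he : 2 * τ + 2 ≤ e)
    (hm : ((p : ℤ) ^ (τ + 1)) ∣ m) :
    Sc k (p ^ e) b m = (p : ℂ) ^ (τ + 1) * ∑ z ∈ Finset.range (p ^ (e - 2 - τ)),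
      ph (b * ((p * z : ℕ) : ℤ) ^ k + m * ((p * z : ℕ) : ℤ)) (p ^ e) := by
  have hp0 : 0 < p := hp.pos
  have hpZ : Prime (p : ℤ) := Nat.prime_iff_prime_int.1 hp
  rw [stp k p e (τ + 1) b m (by omega) hp0 (by omega)]
  congr 1
  have e1 : p ^ (e - (τ + 1)) = p * p ^ (e - 2 - τ) := by
    rw [← pow_succ']
    congr 1
    omega
  rw [e1, ← sum_mult (fun y => ph (b * (y : ℤ) ^ k + m * (y : ℤ)) (p ^ e)) p _ hp0]
  refine Finset.sum_congr ?_ fun y _ => rfl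
  ext y
  rw [Finset.mem_filter, Finset.mem_filter]
  refine and_congr_right fun _ => ?_
  obtain ⟨k', hk'⟩ := h1
  have hk'p : ¬ p ∣ k' := by
    intro h
    obtain ⟨c, rfl⟩ := h
    exact h2 ⟨c, by rw [hk', pow_succ]; ring⟩
  have hkZ : (k : ℤ) = (p : ℤ) ^ τ * (k' : ℤ) := by rw [hk']; push_cast; ring
  have hne : (p : ℤ) ^ τ ≠ 0 := pow_ne_zero _ (by exact_mod_cast hp0.ne')
  rw [dvd_add_left hm, hkZ]
  have e2 : (p : ℤ) ^ τ * (k' : ℤ) * b * (y : ℤ) ^ (k - 1) =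
      (p : ℤ) ^ τ * ((k' : ℤ) * b * (y : ℤ) ^ (k - 1)) := by ring
  rw [e2, pow_succ, mul_dvd_mul_iff_left hne]
  constructor
  · intro h
    rcases hpZ.dvd_or_dvd h with h3 | h3
    · rcases hpZ.dvd_or_dvd h3 with h4 | h4
      · exact absurd (by exact_mod_cast h4) hk'p
      · exact absurd h4 hb
    · exact_mod_cast hpZ.dvd_of_dvd_pow h3
  · intro h
    have h3 : (p : ℤ) ∣ (y : ℤ) := by exact_mod_cast h
    exact Dvd.dvd.mul_left (dvd_pow h3 (by omega)) _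

/-- PPC: prime powers, the degenerate cases -/
theorem ppc (k : ℕ) (hk : 3 ≤ k) (stp : StpStmt) : PpcStmt k := by
  intro p e τ b m hp hb h1 h2 he
  have hp0 : 0 < p := hp.pos
  have hpC : (p : ℂ) ≠ 0 := by exact_mod_cast hp0.ne'
  have hτ := tau_bound hk hp.two_le h1
  refine ⟨?_, ?_, ?_, ?_⟩
  · intro hm
    rw [stp k p e (τ + 1) b m (by omega) hp0 (by omega), Finset.filter_false_of_mem, Finset.sum_empty,
      mul_zero]
    intro y _ h
    apply hm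
    have h3 : (p : ℤ) ^ τ ∣ (k : ℤ) * b * (y : ℤ) ^ (k - 1) + m :=
      (pow_dvd_pow _ (by omega)).trans h
    have h4 : (p : ℤ) ^ τ ∣ (k : ℤ) * b * (y : ℤ) ^ (k - 1) := by
      have h5 : (p : ℤ) ^ τ ∣ (k : ℤ) := by exact_mod_cast h1
      exact (h5.mul_right b).mul_right _
    exact (dvd_add_right h4).1 h3
  · intro m' hm' hke
    have hdv : ((p : ℤ) ^ (τ + 1)) ∣ m := by
      rw [hm']
      exact (pow_dvd_pow _ (by omega)).mul_right _
    rw [reduce k hk stp p e τ b m hp hb h1 h2 he hdv]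
    have e1 : ∀ z ∈ Finset.range (p ^ (e - 2 - τ)),
        ph (b * ((p * z : ℕ) : ℤ) ^ k + m * ((p * z : ℕ) : ℤ)) (p ^ e) =
          ph (b * (z : ℤ) ^ k + m' * (z : ℤ)) (p ^ (e - k)) := by
      intro z _
      have e2 : b * ((p * z : ℕ) : ℤ) ^ k + m * ((p * z : ℕ) : ℤ) =
          (p : ℤ) ^ k * (b * (z : ℤ) ^ k + m' * (z : ℤ)) := by
        rw [hm']
        obtain ⟨j, rfl⟩ : ∃ j, k = j + 1 := ⟨k - 1, by omega⟩
        push_cast
        rw [mul_pow]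
        ring
      have e3 : e = k + (e - k) := by omega
      rw [e2]
      conv_lhs => rw [e3]
      exact ph_scale _ p k (e - k) hp0
    rw [Finset.sum_congr rfl e1]
    have e4 : p ^ (e - 2 - τ) = p ^ (e - k) * p ^ (k - 2 - τ) := by
      rw [← pow_add]
      congr 1
      omega
    rw [e4, sum_period]
    · rw [← mul_assoc]
      have e5 : (p : ℂ) ^ (τ + 1) * ((p ^ (k - 2 - τ) : ℕ) : ℂ) = (p : ℂ) ^ (k - 1) := by
        push_cast
        rw [← pow_add]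
        congr 1
        omega
      rw [e5]
      rfl
    · intro w y
      apply ph_congr (pow_pos hp0 _)
      have h3 : (((p ^ (e - k) : ℕ) : ℤ)) ∣ ((p ^ (e - k) * w + y : ℕ) : ℤ) - (y : ℤ) :=
        ⟨(w : ℤ), by push_cast; ring⟩
      have h4 : (((p ^ (e - k) : ℕ) : ℤ)) ∣ ((p ^ (e - k) * w + y : ℕ) : ℤ) ^ k - (y : ℤ) ^ k :=
        h3.trans (sub_dvd_pow_sub_pow _ _ k)
      have e6 : b * ((p ^ (e - k) * w + y : ℕ) : ℤ) ^ k + m' * ((p ^ (e - k) * w + y : ℕ) : ℤ) -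
          (b * (y : ℤ) ^ k + m' * (y : ℤ)) =
          b * (((p ^ (e - k) * w + y : ℕ) : ℤ) ^ k - (y : ℤ) ^ k) +
            m' * (((p ^ (e - k) * w + y : ℕ) : ℤ) - (y : ℤ)) := by ring
      rw [e6]
      exact dvd_add (h4.mul_left _) (h3.mul_left _)
  · intro hdv hnd hke
    rw [reduce k hk stp p e τ b m hp hb h1 h2 he hdv]
    have hm0 : m ≠ 0 := by
      rintro rfl
      exact hnd (dvd_zero _)
    have hfin : FiniteMultiplicity (p : ℤ) m :=
      Int.finiteMultiplicity_iff.2 ⟨by simpa using hp.ne_one, hm0⟩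
    obtain ⟨m₀, hm₀, hc0⟩ := hfin.exists_eq_pow_mul_and_not_dvd
    set c := multiplicity (p : ℤ) m with hcdef
    have hc1 : τ + 1 ≤ c := by
      by_contra hlt
      push Not at hlt
      apply hc0
      rw [hm₀] at hdv
      have h3 : (p : ℤ) ^ (c + 1) ∣ (p : ℤ) ^ c * m₀ := (pow_dvd_pow _ (by omega)).trans hdv
      rw [pow_succ] at h3
      exact (mul_dvd_mul_iff_left (pow_ne_zero _ (by exact_mod_cast hp0.ne'))).1 h3
    have hc2 : c + 2 ≤ k := by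
      by_contra hlt
      push Not at hlt
      apply hnd
      rw [hm₀]
      exact (pow_dvd_pow _ (by omega)).mul_right _
    obtain ⟨n, hn⟩ : ∃ n, e = c + 1 + (n + 1) := ⟨e - c - 2, by omega⟩
    have e1 : ∀ z ∈ Finset.range (p ^ (e - 2 - τ)),
        ph (b * ((p * z : ℕ) : ℤ) ^ k + m * ((p * z : ℕ) : ℤ)) (p ^ e) =
          ph (b * (p : ℤ) ^ (k - 1 - c) * (z : ℤ) ^ k + m₀ * (z : ℤ)) (p ^ (n + 1)) := by
      intro z _
      have e2 : b * ((p * z : ℕ) : ℤ) ^ k + m * ((p * z : ℕ) : ℤ) =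
          (p : ℤ) ^ (c + 1) * (b * (p : ℤ) ^ (k - 1 - c) * (z : ℤ) ^ k + m₀ * (z : ℤ)) := by
        have e3 : (p : ℤ) ^ k = (p : ℤ) ^ (c + 1) * (p : ℤ) ^ (k - 1 - c) := by
          rw [← pow_add]
          congr 1
          omega
        push_cast
        rw [mul_pow, e3]
        nth_rewrite 1 [hm₀]
        ring
      rw [e2, hn]
      exact ph_scale _ p (c + 1) (n + 1) hp0
    rw [Finset.sum_congr rfl e1]
    have e4 : p ^ (e - 2 - τ) = p ^ (n + 1) * p ^ (c - 1 - τ) := by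
      rw [← pow_add]
      congr 1
      omega
    have hper : ∀ s y : ℕ, ph (b * (p : ℤ) ^ (k - 1 - c) * ((p ^ n * s + y : ℕ) : ℤ) ^ k +
        m₀ * ((p ^ n * s + y : ℕ) : ℤ)) (p ^ (n + 1)) =
        ph (b * (p : ℤ) ^ (k - 1 - c) * (y : ℤ) ^ k + m₀ * (y : ℤ)) (p ^ (n + 1)) *
          ee ((s : ℝ) / (p : ℝ) * (m₀ : ℝ)) := by
      intro s y
      have h3 : ((p : ℤ) ^ n) ∣ ((p ^ n * s + y : ℕ) : ℤ) - (y : ℤ) :=
        ⟨(s : ℤ), by push_cast; ring⟩
      have h4 : ((p : ℤ) ^ n) ∣ ((p ^ n * s + y : ℕ) : ℤ) ^ k - (y : ℤ) ^ k :=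
        h3.trans (sub_dvd_pow_sub_pow _ _ k)
      have h5 : ((p : ℤ) ^ 1) ∣ (p : ℤ) ^ (k - 1 - c) := pow_dvd_pow _ (by omega)
      have h6 : (((p ^ (n + 1) : ℕ) : ℤ)) ∣ (b * (p : ℤ) ^ (k - 1 - c) *
          ((p ^ n * s + y : ℕ) : ℤ) ^ k + m₀ * ((p ^ n * s + y : ℕ) : ℤ)) -
          ((b * (p : ℤ) ^ (k - 1 - c) * (y : ℤ) ^ k + m₀ * (y : ℤ)) + m₀ * (p : ℤ) ^ n * (s : ℤ)) := by
        have e5 : (b * (p : ℤ) ^ (k - 1 - c) *
          ((p ^ n * s + y : ℕ) : ℤ) ^ k + m₀ * ((p ^ n * s + y : ℕ) : ℤ)) -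
          ((b * (p : ℤ) ^ (k - 1 - c) * (y : ℤ) ^ k + m₀ * (y : ℤ)) + m₀ * (p : ℤ) ^ n * (s : ℤ)) =
            b * ((p : ℤ) ^ (k - 1 - c) * (((p ^ n * s + y : ℕ) : ℤ) ^ k - (y : ℤ) ^ k)) := by
          push_cast
          ring
        rw [e5]
        have h7 := mul_dvd_mul h5 h4
        have e6 : (((p ^ (n + 1) : ℕ) : ℤ)) = (p : ℤ) ^ 1 * (p : ℤ) ^ n := by
          push_cast
          ring
        rw [e6]
        exact h7.mul_left _
      rw [ph_congr (pow_pos hp0 _) h6, ph_add]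
      congr 1
      unfold ph
      congr 1
      push_cast
      have hpR : (p : ℝ) ≠ 0 := by exact_mod_cast hp0.ne'
      rw [pow_succ]
      field_simp
    rw [e4, sum_period]
    · have e7 : p ^ (n + 1) = p ^ n * p := pow_succ _ _
      have e8 : ∑ y ∈ Finset.range (p ^ (n + 1)),
          ph (b * (p : ℤ) ^ (k - 1 - c) * (y : ℤ) ^ k + m₀ * (y : ℤ)) (p ^ (n + 1)) = 0 := by
        conv_lhs => rw [show Finset.range (p ^ (n + 1)) = Finset.range (p ^ n * p) by rw [e7]]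
        rw [sum_mul_range, Finset.sum_comm]
        refine Finset.sum_eq_zero fun y _ => ?_
        rw [Finset.sum_congr rfl (fun s _ => hper s y), ← Finset.mul_sum, sum_ee_div p hp0 m₀,
          if_neg hc0, mul_zero]
      rw [e8, mul_zero, mul_zero]
    · intro w y
      have h8 := hper (p * w) y
      have e9 : p ^ (n + 1) * w + y = p ^ n * (p * w) + y := by rw [pow_succ]; ring
      have e10 : ee (((p * w : ℕ) : ℝ) / (p : ℝ) * (m₀ : ℝ)) = 1 := by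
        have hpR : (p : ℝ) ≠ 0 := by exact_mod_cast hp0.ne'
        have : ((p * w : ℕ) : ℝ) / (p : ℝ) * (m₀ : ℝ) = (((w : ℤ) * m₀ : ℤ) : ℝ) := by
          push_cast
          field_simp
        rw [this, ee_int]
      rw [e10, mul_one] at h8
      rw [e9]
      exact h8
  · intro hdv hek
    rw [reduce k hk stp p e τ b m hp hb h1 h2 he hdv, norm_mul, norm_pow, Complex.norm_natCast]
    have h3 : ‖∑ z ∈ Finset.range (p ^ (e - 2 - τ)),
        ph (b * ((p * z : ℕ) : ℤ) ^ k + m * ((p * z : ℕ) : ℤ)) (p ^ e)‖ ≤ (p : ℝ) ^ (e - 2 - τ) := by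
      refine (norm_sum_le _ _).trans (le_of_eq ?_)
      have : ∀ z ∈ Finset.range (p ^ (e - 2 - τ)),
          ‖ph (b * ((p * z : ℕ) : ℤ) ^ k + m * ((p * z : ℕ) : ℤ)) (p ^ e)‖ = 1 := fun z _ => norm_ee _
      rw [Finset.sum_congr rfl this, Finset.sum_const, Finset.card_range]
      simp
    calc (p : ℝ) ^ (τ + 1) * _ ≤ (p : ℝ) ^ (τ + 1) * (p : ℝ) ^ (e - 2 - τ) :=
          mul_le_mul_of_nonneg_left h3 (by positivity)
      _ = (p : ℝ) ^ (e - 1) := by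
          rw [← pow_add]
          congr 1
          omega

end Pool.Agent.VM.H17
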